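import Pool.Agent.T2H10.QA.C

/-!
# Reduced MaxCut-QAOA Lie algebras: graphs with a vertex isolated by parity refinement (MP_debdb1_mp)

Definitions (`Op`, `PX`, `PZ`, `HP`, `HM`, `lieGen`, `dla`, `HPred`, `dlaRed`, `ParDef`) are in
`Pool/Agent/T2H10/QA/Defs.lean`.
-/

set_option autoImplicit false

namespace Pool.Agent.Results.MP_debdb1_mp.ParityRefinement

open Pool.Agent.T2H10.QA

/-- For every finite graph and every vertex `v`: (1) if the set `{v}` is obtained by parity refinement then
`i X_v` belongs to the standard dynamical Lie algebra; (2) if `i X_v` belongs to the standard dynamical Lie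
algebra then the reduced dynamical Lie algebra at `v` has strictly smaller dimension; (3) so the inequality
of Q1 holds at each vertex isolated by parity refinement, for instance (4) at the only vertex of even
degree, if there is exactly one. -/
theorem result (V : Type) [Fintype V] (Γ : SimpleGraph V) (v : V) :
    (ParDef Γ {v} → Complex.I • PX v ∈ dla Γ) ∧
    (Complex.I • PX v ∈ dla Γ → Module.finrank ℝ (dlaRed Γ v) < Module.finrank ℝ (dla Γ)) ∧
    (ParDef Γ {v} → Module.finrank ℝ (dlaRed Γ v) < Module.finrank ℝ (dla Γ)) ∧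
    ((∀ w : V, Odd {k | Γ.Adj w k}.ncard ↔ w ≠ v) →
      Module.finrank ℝ (dlaRed Γ v) < Module.finrank ℝ (dla Γ)) := by
  classical
  have h1 : ParDef Γ {v} → Complex.I • PX v ∈ dla Γ := by
    intro hv
    have := mem_of_parDef Γ {v} hv
    rw [← XC_eq] at this
    have h2 : XC ({v} : Set V) = PX v := by
      simp [XC]
    rwa [h2] at this
  refine ⟨h1, finrank_lt Γ v, fun h => finrank_lt Γ v (h1 h), fun h => ?_⟩
  refine finrank_lt Γ v (h1 ?_)
  have h2 := ParDef.odd (Γ := Γ) Set.univ [] ParDef.univ (by simp)
  have h3 := ParDef.diff (Γ := Γ) Set.univ _ ParDef.univ h2 (Set.subset_univ _)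
  convert h3 using 1
  ext w
  simp only [Set.mem_singleton_iff, Set.mem_sdiff, Set.mem_univ, true_and, Set.mem_setOf_eq,
    List.not_mem_nil, false_implies, implies_true, and_true, h w, not_not]

end Pool.Agent.Results.MP_debdb1_mp.ParityRefinement
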